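import Pool.Agent.Helper43x.TP.Main

/-!
# Fibre products of elliptic surfaces: `L`-functions of twisted tensor products of elliptic curves

Let `K` be the function field of a curve over the field `k` with `q` elements, of characteristic at
least five, `l` an odd prime divisor of `q ^ 2 - 1` and `χ` the character of a quadratic extension
`K(√u)` with class number prime to `l`. Let `E i` be finitely many semistable elliptic curves over `K`
such that `l` divides the number of points of all good reductions, for example curves with a
`K`-rational point of order five or seven. If the places of bad reduction do not split in `K(√u)` (and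
`l` does not divide `q_v + 1` if they are unramified), then the `L`-function of the tensor product of
all the `H ^ 1 (E i)` with `χ` has no zero at any integer, and its values there are prime to `l`.

Let `X` be a smooth projective model of the fibre product over the curve of any number of the twists
of the `E i` by `χ`, in any multiplicities. By Leray's spectral sequence the Tate classes in
`H ^ {2 j} (X)` come from the cycles on the fibres over the geometric generic point, from the bad
fibres, and from the first cohomology of the curve with coefficients in the cohomology of the fibres in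
the odd degree `2 j - 1`, which is a sum of Tate twists of the tensor products of the theorem. The
theorem says that the latter contribute nothing to the pole of the zeta function of `X` at `s = j`, for
all integers `j`. The case of symmetric powers of one curve is the starting result
`MP_81632f_ag.SymmetricPowers`; the general criterion behind the proof is
`Pool.Agent.Helper43x.TP.crit_main`.
-/

set_option autoImplicit false
set_option linter.all false
set_option maxHeartbeats 4000000

open Polynomial Pool.Agent.W343.BSD Pool.Agent.W313.Gr Pool.Agent.R427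

namespace Pool.Agent.Results.MP_557161_ag.FibreProducts

section defs

variable {k K : Type} [Field k] [Field K] [Algebra k K]

/-- The curve `y ^ 2 = x ^ 3 + a x + b` has bad reduction at `v`. -/
def IsBad (v : FF.Place k K) (a b : K) : Prop := v.ord (minDisc v a b) ≠ 0

/-- The curve `y ^ 2 = x ^ 3 + a x + b` is elliptic, the reduction at all places is good or
multiplicative (the coefficient of `x` of the minimal model is a unit), and `l` divides the number of
points of the reduction at all places of good reduction. -/
structure IsCurveMod (l : ℕ) (k : Type) {K : Type} [Field k] [Field K] [Algebra k K] (a b : K) :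
    Prop where
  disc : 4 * a ^ 3 + 27 * b ^ 2 ≠ 0
  semistable : ∀ v : FF.Place k K, IsBad v a b → minA v a b ≠ 0 ∧ v.ord (minA v a b) = 0
  points : ∀ v : FF.Place k K, ¬ IsBad v a b → (l : ℤ) ∣ Nat.card (S.Res v) + 1 - S.trace v a b

/-- The element `u` is a square in the completion of `K` at `v`: if `u` is not a square in `K`, then
`v` splits in `K(√u)`. -/
def Splits (v : FF.Place k K) (u : K) : Prop :=
  ∃ s : K, u = s ^ 2 ∨ v.ord u < v.ord (u - s ^ 2)

open Classical in
/-- The character `χ` of `K(√u)`: its value at `v` is `0`, `1`, `-1` if `v` is ramified, split,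
inert. -/
noncomputable def chi (v : FF.Place k K) (u : K) : ℤ :=
  if Odd (v.ord u) then 0 else if Splits v u then 1 else -1

/-- The place `v` is ramified in `K(√u)`, or it is inert and `l` does not divide `q_v + 1`. -/
def IsNonsplit (l : ℕ) (v : FF.Place k K) (u : K) : Prop :=
  Odd (v.ord u) ∨ (¬ Splits v u ∧ ¬ l ∣ Nat.card (S.Res v) + 1)

/-- The polynomial `det (1 - T F)` of the Frobenius endomorphism `F` at `v` on the tensor product of
the first cohomology groups of the curves `y ^ 2 = x ^ 3 + a i x + b i`: `F` is the Kronecker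
product of the matrices with the rows `(a_v, - q_v)` and `(1, 0)`. -/
noncomputable def tensorPoly {I : Type} [Fintype I] [DecidableEq I] (a b : I → K)
    (v : FF.Place k K) : ℤ[X] :=
  Matrix.charpolyRev fun f g : I → Fin 2 =>
    ∏ i, (!![S.trace v (a i) (b i), -(Nat.card (S.Res v) : ℤ); 1, 0] :
      Matrix (Fin 2) (Fin 2) ℤ) (f i) (g i)

/-- The polynomial `G` is the `L`-function of the tensor product with `χ` of the curves
`y ^ 2 = x ^ 3 + a i x + b i`: the product of `G` with the Euler factors is one. The Euler factors at
the places where one of the curves has bad reduction may be replaced by any polynomials in `T ^ deg v`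
with constant term one. -/
def IsTensorL (k : Type) {K : Type} [Field k] [Field K] [Algebra k K] {I : Type} [Fintype I]
    [DecidableEq I] (a b : I → K) (u : K) (G : ℤ[X]) : Prop :=
  ∃ F : FF.Place k K → ℤ[X],
    (∀ v, (∀ i, ¬ IsBad v (a i) (b i)) →
      F v = (tensorPoly a b v).comp (C (chi v u) * X ^ S.deg v)) ∧
    (∀ v, (∃ i, IsBad v (a i) (b i)) → ∃ f : ℤ[X], f.coeff 0 = 1 ∧ F v = f.comp (X ^ S.deg v)) ∧
    (G : PowerSeries ℤ) * eulerProd (fun v : FF.Place k K => S.deg v)
      (fun v => (F v : PowerSeries ℤ)) = 1

/-- `M` is the function field of a curve over `k` and is `K(√u)`. -/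
def IsQuadField (k K M : Type) [Field k] [Field K] [Field M] [Algebra k M] [Algebra K M] (u : K) :
    Prop :=
  IsCurveField k M ∧ ∃ θ : M, θ ^ 2 = algebraMap K M u ∧ IntermediateField.adjoin K {θ} = ⊤

end defs

section proof

theorem IsCurveMod.pts {l : ℕ} {k K : Type} [Field k] [Field K] [Algebra k K] {a b : K}
    (h : IsCurveMod l k a b) : PointsDvd l k a b :=
  fun v hv => h.points v fun h1 => h1 hv

theorem ne_of_dvd {l : ℕ} {k : Type} [Field k] [Finite k] (hl : l.Prime)
    (hq : l ∣ Nat.card k ^ 2 - 1) : ((l : ℕ) : k) ≠ 0 := by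
  intro h0
  obtain ⟨p, hp⟩ := CharP.exists k
  have hpp : p.Prime := CharP.char_is_prime k p
  let _ : Fintype k := Fintype.ofFinite k
  obtain ⟨n, -, hn⟩ := FiniteField.card k p
  have h1 : p ∣ l := (CharP.cast_eq_zero_iff k p l).1 h0
  have h2 := (Nat.prime_dvd_prime_iff_eq hpp hl).1 h1
  subst h2
  rw [Nat.card_eq_fintype_card, hn, ← pow_mul] at hq
  have hn0 : (n : ℕ) * 2 ≠ 0 := mul_ne_zero n.ne_zero two_ne_zero
  have h3 : p ∣ p ^ ((n : ℕ) * 2) := dvd_pow_self p hn0
  have h4 : 1 ≤ p ^ ((n : ℕ) * 2) := Nat.one_le_pow _ _ hpp.pos
  have h5 := (Nat.dvd_sub_iff_right h4 h3).1 hq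
  exact hpp.one_lt.ne' (Nat.dvd_one.1 h5)

theorem nonsplit_conv {l : ℕ} [Fact l.Prime] {k K : Type} [Field k] [Finite k] [Field K]
    [Algebra k K] [FF.IsFF k K] (hq2 : ((Nat.card k : ℕ) : ZMod l) ^ 2 = 1) {u : K}
    {v : FF.Place k K} (h : IsNonsplit l v u) : TH639.B3.chi v u = 0 ∨
      (TH639.B3.chi v u = -1 ∧ ((Nat.card k : ℕ) : ZMod l) ^ v.deg = 1) := by
  by_cases hodd : Odd (v.ord u)
  · exact Or.inl (TH639.B3.chi_odd hodd)
  · right
    obtain ⟨h1, h2⟩ := h.resolve_left hodd
    rcases TH639.B3.chi_pm hodd with ⟨-, h3⟩ | ⟨h3, -⟩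
    · exact absurd h3 h1
    · refine ⟨h3, (AR.pow_pm hq2 v.deg).resolve_right fun h4 => h2 ?_⟩
      rw [← ZMod.natCast_eq_zero_iff]
      push_cast
      rw [show ((Nat.card (S.Res v) : ℕ) : ZMod l) = ((Nat.card k : ℕ) : ZMod l) ^ v.deg from
        card_RFl v, h4]
      ring

end proof

/-- Let `K` be the function field of a curve over the field `k` with `q` elements, of
characteristic at least five, let `l` be an odd prime divisor of `q ^ 2 - 1` and let `u` in `K` be not a
square, such that `k` is the field of constants of `K(√u)` and the class number of `K(√u)` is prime to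
`l`; let `χ` be the quadratic character of `K(√u)`. Let `E i` be a finite family of semistable elliptic
curves over `K`, such that `l` divides the number of points of all good reductions and such that the
places of bad reduction are ramified in `K(√u)`, or inert with `q_v + 1` prime to `l`. If the
`L`-function of the tensor product of all `H ^ 1 (E i)` and `χ` is an integral polynomial `G(T)` then,
for all integers `j`, the rational number `G(q ^ j)` is not zero and its `l`-adic valuation is
zero. -/
theorem result (l : ℕ) (k K : Type) [Field k] [Finite k] [Field K] [Algebra k K]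
    (hl : l.Prime) (hl2 : l ≠ 2) (h6 : (6 : k) ≠ 0) (hq : l ∣ Nat.card k ^ 2 - 1)
    (hK : IsCurveField k K) (u : K) (hu : ¬ IsSquare u) (M : Type) [Field M] [Algebra k M]
    [Algebra K M] [IsScalarTower k K M] (hM : IsQuadField k K M u)
    (hcl : ¬ l ∣ S.classNumber k M) (I : Type) [Fintype I] [DecidableEq I] (a b : I → K)
    (hab : ∀ i, IsCurveMod l k (a i) (b i))
    (hbad : ∀ i, ∀ v : FF.Place k K, IsBad v (a i) (b i) → IsNonsplit l v u)
    (G : ℤ[X]) (hG : IsTensorL k a b u G) (j : ℤ) :
    (G.map (Int.castRingHom ℚ)).eval (((Nat.card k : ℕ) : ℚ) ^ j) ≠ 0 ∧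
      padicValRat l ((G.map (Int.castRingHom ℚ)).eval (((Nat.card k : ℕ) : ℚ) ^ j)) = 0 := by
  classical
  have : Fact l.Prime := ⟨hl⟩
  have hFF : FF.IsFF k K := ⟨hK.essFiniteType, hK.trdeg_eq_one⟩
  obtain ⟨hcf, θ, hθ, htop⟩ := hM
  have hFFM : FF.IsFF k M := ⟨hcf.essFiniteType, hcf.trdeg_eq_one⟩
  have hu0 : u ≠ 0 := by
    rintro rfl
    exact hu IsSquare.zero
  have hns : ∀ s : K, u ≠ s ^ 2 := fun s h => hu ⟨s, by rw [h, sq]⟩
  have hrel := Pool.Agent.R427.AQ.nr2_of_class (l := l) h6 (ne_of_dvd hl hq) hu0 hns hθ htop
    (Pool.Agent.TH958.T4.constDeg_eq_one hK.algClosed)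
    (Pool.Agent.TH958.T4.constDeg_eq_one hcf.algClosed) hcf.algClosed hcl
  have hlk := ne_of_dvd hl hq
  have hq2 := AR.card_sq (l := l) hq
  have hlo : Odd l := hl.odd_of_ne_two hl2
  obtain ⟨F, hF1, hF2, hG⟩ := hG
  refine Helper43x.TP.crit_main hlk hlo hq2
    (Helper43x.TP.bad_set_finite (k := k) fun i => (hab i).disc) ?_ hrel
    (fun f : I → Fin 2 => ∑ i, (f i : ℕ)) (tensorPoly a b) F ?_ ?_ ?_ hG j
  · rintro v ⟨i, hi⟩
    exact nonsplit_conv hq2 (hbad i v hi)
  · intro v hv
    refine Helper43x.TP.tens_unip (fun i => (hab i).pts) v fun i => ?_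
    by_contra h
    exact hv ⟨i, h⟩
  · intro v hv
    exact hF1 v fun i h => hv ⟨i, h⟩
  · intro v hv
    exact hF2 v hv

end Pool.Agent.Results.MP_557161_ag.FibreProducts
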