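import Pool.Agent.Helper43x.UC.Gal

/-!
# The CM fields that never have exotic Tate classes

Let `K i` be finitely many CM fields. We consider all abelian varieties over finite fields which are
products of powers of simple abelian varieties `A i` whose Frobenius elements `π i` are in `K i`, such that
the `A i` stay simple with the centre `K i`, and not isogenous, over an algebraic closure (the family
`π` is separated). When are the Tate classes on all these abelian varieties generated by classes of
divisors, for all primes `p` (so that the conjecture of Tate holds for them in all degrees)?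

The answer: if and only if this holds for **one** prime `p` that splits completely in the `K i`; and if
and only if the following two conditions on the Galois action on the embeddings of the `K i` in the
field of algebraic numbers hold. (a) For all `i` the module of the odd rational functions on the set
of the embeddings of `K i` is irreducible, or its only other stable subspaces are those of the functions
invariant under an automorphism `s` of `K i` which is neither the identity nor the complex conjugation.
(b) For `i ≠ j`, and all embeddings `σ` of `K i` and `τ` of `K j`, there is an automorphism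
of the field of algebraic numbers that is the complex conjugation on `σ (K i)` and the identity on
`τ (K j)`.
-/

set_option autoImplicit false

namespace Pool.Agent.Results.MP_557161_ag.FieldsWithoutExoticClasses

open NumberField NumberField.IsCMField

section defs

variable {Ω V : Type} [Field Ω] [AddCommGroup V] [Module Ω V]

/-- The classes in `⋀ ^ (2 m) V` that are multiplied by `(q ^ m) ^ s` by `F ^ s`. -/
def tateClasses (F : V →ₗ[Ω] V) (q : ℕ) (m s : ℕ) : Set (ExteriorAlgebra Ω V) :=
  {x | x ∈ ⋀[Ω]^(2 * m) V ∧ ExteriorAlgebra.map (F ^ s) x = ((q : Ω) ^ m) ^ s • x}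

variable {I : Type} {K : I → Type} [∀ i, Field (K i)]

/-- `V` is spanned by eigenvectors of `F` whose eigenvalues are images in `Ω` of the `π i`. -/
def HasEigenvalues (π : ∀ i, K i) (F : V →ₗ[Ω] V) : Prop :=
  Submodule.span Ω {v : V | ∃ i, ∃ σ : K i →+* Ω, F v = σ (π i) • v} = ⊤

/-- All Tate classes, over all finite extensions, in the even exterior powers of Frobenius modules
with eigenvalues conjugate to the `π i` are polynomials in the Tate classes of degree two. -/
def TateClassesGenerated (π : ∀ i, K i) (q : ℕ) : Prop :=
  ∀ {Ω V : Type} [Field Ω] [IsAlgClosed Ω] [CharZero Ω] [AddCommGroup V] [Module Ω V]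
    (F : V →ₗ[Ω] V), HasEigenvalues π F → ∀ m s : ℕ, 0 < s →
      ∀ x ∈ tateClasses F q m s, x ∈ Algebra.adjoin Ω (tateClasses F q 1 1)

/-- The `π i` are Weil numbers of weight one for `p ^ a`: algebraic integers all of whose complex
absolute values are `p ^ (a / 2)`. -/
def IsWeilFamily (p a : ℕ) (π : ∀ i, K i) : Prop :=
  ∀ i, IsIntegral ℤ (π i) ∧ ∀ φ : K i →+* ℂ, ‖φ (π i)‖ ^ 2 = (p : ℝ) ^ a

/-- For all positive `n` the complex conjugates of the `n`-th powers of all the `π i` are different:
the powers of `π i` generate `K i`, and they are not conjugate to those of `π j` for `j ≠ i`. -/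
def IsSeparated (π : ∀ i, K i) : Prop :=
  ∀ n : ℕ, 0 < n → Function.Injective fun x : Σ i, K i →+* ℂ => x.2 (π x.1) ^ n

variable (p : ℕ) (K)

/-- Separated families of Weil numbers in the `K i` for powers of `p` have no exotic Tate classes. -/
def NoExoticClasses : Prop :=
  ∀ (a : ℕ) (π : ∀ i, K i), IsWeilFamily p a π → IsSeparated π → TateClassesGenerated π (p ^ a)

/-- All embeddings of the `K i` in the algebraic closure of the field of `p`-adic numbers have values in
the latter field. -/
def SplitsCompletely [Fact p.Prime] : Prop :=
  ∀ i, ∀ y : K i →+* PadicAlgCl p, ∃ x : K i →+* ℚ_[p],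
    y = (algebraMap ℚ_[p] (PadicAlgCl p)).comp x

end defs

section fields

/-- The field of algebraic numbers. -/
abbrev QBar : Type := AlgebraicClosure ℚ

variable (K : Type) [Field K] [NumberField K] [IsCMField K]

variable {K} in
/-- The embedding that is conjugate to `σ`. -/
noncomputable def conj (σ : K →+* QBar) : K →+* QBar :=
  σ.comp (complexConj K : K →+* K)

variable {K} in
/-- The function `f` on the embeddings changes the sign under complex conjugation. -/
def IsOdd (f : (K →+* QBar) → ℚ) : Prop := ∀ σ, f (conj σ) = - f σ

variable {K} in
/-- A space of functions on the embeddings is stable under the Galois group. -/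
def IsStable (W : Submodule ℚ ((K →+* QBar) → ℚ)) : Prop :=
  ∀ g : QBar ≃+* QBar, ∀ f ∈ W, (fun σ => f ((g : QBar →+* QBar).comp σ)) ∈ W

variable {K} in
/-- The space `W` consists of the odd functions that are invariant under the automorphism `s` of `K`. -/
def IsSpaceOf (s : K ≃+* K) (W : Submodule ℚ ((K →+* QBar) → ℚ)) : Prop :=
  ∀ f, f ∈ W ↔ IsOdd f ∧ ∀ σ, f (σ.comp (s : K →+* K)) = f σ

/-- Every stable space of odd functions is zero, or contains all odd functions, or consists of the odd
functions that are invariant under an automorphism of `K` which is neither the identity nor the complex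
conjugation. -/
def IsSmall : Prop :=
  ∀ W : Submodule ℚ ((K →+* QBar) → ℚ), (∀ f ∈ W, IsOdd f) → IsStable W →
    W = ⊥ ∨ (∀ f, IsOdd f → f ∈ W) ∨
      ∃ s : K ≃+* K, s ≠ RingEquiv.refl K ∧ (s : K →+* K) ≠ (complexConj K : K →+* K) ∧
        IsSpaceOf s W

/-- For all embeddings `σ` of `K` and `τ` of `K'` there is an automorphism of the field of algebraic
numbers that is the complex conjugation on `σ (K)` and the identity on `τ (K')`. -/
def AreIndependent (K' : Type) [Field K'] : Prop :=
  ∀ (σ : K →+* QBar) (τ : K' →+* QBar), ∃ g : QBar ≃+* QBar,
    (g : QBar →+* QBar).comp σ = conj σ ∧ (g : QBar →+* QBar).comp τ = τ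

end fields

section proof

theorem generated_iff {I : Type} {K : I → Type} [∀ i, Field (K i)] (π : ∀ i, K i) (q : ℕ) :
    TateClassesGenerated π q ↔ Helper43x.ZO.Generated π q := by
  have h2 : ∀ {Ω V : Type} [Field Ω] [AddCommGroup V] [Module Ω V] (F : V →ₗ[Ω] V),
      tateClasses F q 1 1 = {y : ExteriorAlgebra Ω V |
        y ∈ ⋀[Ω]^2 V ∧ ExteriorAlgebra.map F y = (q : Ω) • y} := by
    intro Ω V _ _ _ F
    ext y
    simp only [tateClasses, mul_one, pow_one]
  constructor
  · intro h Ω V _ _ _ _ _ F hF m s hs x hx hFx
    rw [← h2]
    exact h F hF m s hs x ⟨hx, hFx⟩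
  · intro h Ω V _ _ _ _ _ F hF m s hs x hx
    rw [h2]
    exact h F hF m s hs x hx.1 hx.2

theorem noExotic_iff {I : Type} (K : I → Type) [∀ i, Field (K i)] (p : ℕ) :
    NoExoticClasses K p ↔ Helper43x.UC.GoodAt p K :=
  ⟨fun h a π h1 h2 => (generated_iff _ _).1 (h a π h1 h2),
    fun h a π h1 h2 => (generated_iff _ _).2 (h a π h1 h2)⟩

end proof

/-- **The CM fields that never have exotic Tate classes.** For finitely many CM fields `K i` the
following are equivalent: for all primes `p`, the separated families of Weil numbers in the `K i` for
powers of `p` have no exotic Tate classes; this holds for one prime that splits completely in the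
`K i`; for all `i` the stable spaces of odd functions on the embeddings of `K i` are zero, the space of all
odd functions or that of the odd functions invariant under a nontrivial automorphism other than the
complex conjugation, and for all embeddings `σ` of `K i` and `τ` of `K j`, `j ≠ i`, there is a Galois
automorphism that is the complex conjugation on `σ (K i)` and the identity on `τ (K j)`. -/
theorem result {I : Type} [Fintype I] (K : I → Type) [∀ i, Field (K i)] [∀ i, NumberField (K i)]
    [∀ i, IsCMField (K i)] :
    List.TFAE [∀ p : ℕ, p.Prime → NoExoticClasses K p,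
      ∃ (p : ℕ) (_ : Fact p.Prime), SplitsCompletely K p ∧ NoExoticClasses K p,
      (∀ i, IsSmall (K i)) ∧ ∀ i j, i ≠ j → AreIndependent (K i) (K j)] := by
  obtain ⟨_, halg⟩ : ∃ _ : Algebra ℚ (AlgebraicClosure ℚ),
      Algebra.IsAlgebraic ℚ (AlgebraicClosure ℚ) := ⟨_, AlgebraicClosure.isAlgebraic ℚ⟩
  have h := Helper43x.UC.main_tfae K (AlgebraicClosure ℚ)
  have h12 := h.out 0 1
  have h14 := h.out 0 3
  tfae_have 1 ↔ 2 := by
    constructor
    · intro h1
      obtain ⟨p, hp, h2, h3⟩ := h12.1 fun p hp => (noExotic_iff K p).1 (h1 p hp)
      exact ⟨p, hp, h2, (noExotic_iff K p).2 h3⟩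
    · rintro ⟨p, hp, h2, h3⟩ p' hp'
      exact (noExotic_iff K p').2 (h12.2 ⟨p, hp, h2, (noExotic_iff K p).1 h3⟩ p' hp')
  tfae_have 1 ↔ 3 := by
    constructor
    · intro h1
      exact h14.1 fun p hp => (noExotic_iff K p).1 (h1 p hp)
    · intro h3 p hp
      exact (noExotic_iff K p).2 (h14.2 h3 p hp)
  tfae_finish

end Pool.Agent.Results.MP_557161_ag.FieldsWithoutExoticClasses
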