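import Pool.Agent.Helper43x.TH.Main

/-!
# Several abelian varieties over finite fields with the same CM field: the threshold

Let `K` be a CM field and `p` a prime. A tuple of `r` Weil numbers `π i` in `K` for `q = p ^ a` gives
`r` simple abelian varieties `A i` over the field with `q` elements; the tuple is separated if the `A i`
stay simple and not isogenous over an algebraic closure, and their endomorphism algebras have the
centre `K`. How many such abelian varieties with **one and the same** `K` can be multiplied without
exotic Tate classes?

We answer this for the fields `K` with as many symmetries as possible (the Galois group contains all the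
changes of sign: for each pair of conjugate embeddings there is an automorphism which interchanges
the two and fixes all the others), and primes `p` all of whose places in `K` are of degree one or
stable under the complex conjugation. Let `s` be the number of the pairs of conjugate places of
degree one. If `r ≤ s` then almost all `r`-tuples of Weil numbers are separated and have no exotic
Tate classes on all products of powers of the `A i` (so that the conjecture of Tate holds for them in
all degrees): the proportion of the exceptions is at most `(r [K : ℚ] / 2) / ⌊a / h⌋`, with `h` the class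
number. If `r > s` then **all** separated `r`-tuples have exotic Tate classes.
-/

set_option autoImplicit false

namespace Pool.Agent.Results.MP_557161_ag.ThresholdOneField

open NumberField NumberField.IsCMField

section defs

variable {Ω V : Type} [Field Ω] [AddCommGroup V] [Module Ω V]

/-- The classes in `⋀ ^ (2 m) V` that are multiplied by `(q ^ m) ^ s` by `F ^ s`. -/
def tateClasses (F : V →ₗ[Ω] V) (q : ℕ) (m s : ℕ) : Set (ExteriorAlgebra Ω V) :=
  {x | x ∈ ⋀[Ω]^(2 * m) V ∧ ExteriorAlgebra.map (F ^ s) x = ((q : Ω) ^ m) ^ s • x}

variable {K : Type} [Field K] {r : ℕ}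

/-- `V` is spanned by eigenvectors of `F` whose eigenvalues are images in `Ω` of the `π i`. -/
def HasEigenvalues (π : Fin r → K) (F : V →ₗ[Ω] V) : Prop :=
  Submodule.span Ω {v : V | ∃ i, ∃ σ : K →+* Ω, F v = σ (π i) • v} = ⊤

/-- All Tate classes, over all finite extensions, in the even exterior powers of Frobenius modules
with eigenvalues conjugate to the `π i` are polynomials in the Tate classes of degree two. -/
def TateClassesGenerated (π : Fin r → K) (q : ℕ) : Prop :=
  ∀ {Ω V : Type} [Field Ω] [IsAlgClosed Ω] [CharZero Ω] [AddCommGroup V] [Module Ω V]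
    (F : V →ₗ[Ω] V), HasEigenvalues π F → ∀ m s : ℕ, 0 < s →
      ∀ x ∈ tateClasses F q m s, x ∈ Algebra.adjoin Ω (tateClasses F q 1 1)

/-- The `π i` are Weil numbers of weight one for `p ^ a`: algebraic integers all of whose complex
absolute values are `p ^ (a / 2)`. -/
def IsWeilTuple (p a : ℕ) (π : Fin r → K) : Prop :=
  ∀ i, IsIntegral ℤ (π i) ∧ ∀ φ : K →+* ℂ, ‖φ (π i)‖ ^ 2 = (p : ℝ) ^ a

/-- For all positive `n` the complex conjugates of the `n`-th powers of all the `π i` are different:
the powers of `π i` generate `K`, and they are not conjugate to those of `π j` for `j ≠ i`. -/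
def IsSeparated (π : Fin r → K) : Prop :=
  ∀ n : ℕ, 0 < n → Function.Injective fun x : Σ _ : Fin r, K →+* ℂ => x.2 (π x.1) ^ n

/-- The tuple is a separated tuple of Weil numbers without exotic Tate classes. -/
def IsGood (p a : ℕ) (π : Fin r → K) : Prop :=
  IsWeilTuple p a π ∧ IsSeparated π ∧ TateClassesGenerated π (p ^ a)

end defs

section crit

/-- The embedding that is conjugate to `σ`. -/
noncomputable def conj {K : Type} [Field K] [NumberField K] [IsCMField K] {A : Type} [Field A]
    (σ : K →+* A) : K →+* A :=
  σ.comp (complexConj K : K →+* K)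

/-- The field of algebraic numbers. -/
abbrev QBar : Type := AlgebraicClosure ℚ

variable (K : Type) [Field K] [NumberField K] [IsCMField K] (p : ℕ) [Fact p.Prime]

/-- For each embedding `σ` of `K` in the field of algebraic numbers there is an automorphism of the
latter field which interchanges `σ` and its conjugate, and fixes all the other embeddings. -/
def HasSignChanges : Prop :=
  ∀ σ : K →+* QBar, ∃ g : QBar ≃+* QBar, (g : QBar →+* QBar).comp σ = conj σ ∧
    ∀ τ, τ ≠ σ → τ ≠ conj σ → (g : QBar →+* QBar).comp τ = τ

variable {K p} in
/-- The `x i` represent the pairs of conjugate places of degree one above `p`, once each, and all other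
places above `p` are stable under the complex conjugation: the embeddings `x i` of `K` in the field of
`p`-adic numbers are different and not conjugate, and an embedding of `K` in an algebraic closure of
the latter field is one of them, or conjugate to one of them, or defines a stable place. -/
def RepresentsPairs {s : ℕ} (x : Fin s → (K →+* ℚ_[p])) : Prop :=
  (∀ i j, i ≠ j → x i ≠ x j ∧ x i ≠ conj (x j)) ∧
  ∀ y : K →+* PadicAlgCl p, (∃ i, y = (algebraMap ℚ_[p] (PadicAlgCl p)).comp (x i) ∨
    y = (algebraMap ℚ_[p] (PadicAlgCl p)).comp (conj (x i))) ∨ ∀ z, ‖conj y z‖ = ‖y z‖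

/-- For all `a`, and all `h` which are at least the class number of `K`, the proportion among the `r`-tuples
of Weil numbers in `K` for `p ^ a` of those which are not good is at most `(r [K : ℚ] / 2) / ⌊a / h⌋`. -/
def AlmostAllGood (r : ℕ) : Prop :=
  ∀ a h : ℕ, classNumber K ≤ h →
    {π : Fin r → K | IsWeilTuple p a π ∧ ¬ IsGood p a π}.ncard * (a / h) ≤
      {π : Fin r → K | IsWeilTuple p a π}.ncard * (r * Module.finrank ℚ K / 2)

end crit

section proof

theorem generated_iff {K : Type} [Field K] {r : ℕ} (π : Fin r → K) (q : ℕ) :
    TateClassesGenerated π q ↔ Helper43x.ZO.Generated (K := fun _ : Fin r => K) π q := by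
  have h2 : ∀ {Ω V : Type} [Field Ω] [AddCommGroup V] [Module Ω V] (F : V →ₗ[Ω] V),
      tateClasses F q 1 1 = {y : ExteriorAlgebra Ω V |
        y ∈ ⋀[Ω]^2 V ∧ ExteriorAlgebra.map F y = (q : Ω) • y} := by
    intro Ω V _ _ _ F
    ext y
    simp only [tateClasses, mul_one, pow_one]
  constructor
  · intro h Ω V _ _ _ _ _ F hF m s hs x hx hFx
    rw [← h2]
    exact h F hF m s hs x ⟨hx, hFx⟩
  · intro h Ω V _ _ _ _ _ F hF m s hs x hx
    rw [h2]
    exact h F hF m s hs x hx.1 hx.2

end proof

/-- **The threshold for the abelian varieties with one CM field.** Let `K` be a CM field with all sign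
changes, and let `p` be a prime whose places in `K` are of degree one or stable under the complex
conjugation; let `s` be the number of the pairs of conjugate places of degree one. The sets of tuples of
Weil numbers are finite. If `r ≤ s` then almost all `r`-tuples of Weil numbers in `K` for powers of
`p` are separated without exotic Tate classes. If `r > s` then no such tuple exists: all separated
`r`-tuples have exotic Tate classes. -/
theorem result (p : ℕ) [Fact p.Prime] (K : Type) [Field K] [NumberField K] [IsCMField K]
    (hK : HasSignChanges K) (s : ℕ) (x : Fin s → (K →+* ℚ_[p])) (hx : RepresentsPairs x) (r : ℕ) :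
    (∀ a : ℕ, {π : Fin r → K | IsWeilTuple p a π}.Finite) ∧
    (r ≤ s → AlmostAllGood K p r) ∧
    (s < r → ∀ (a : ℕ) (π : Fin r → K), IsWeilTuple p a π → IsSeparated π →
      ¬ TateClassesGenerated π (p ^ a)) := by
  classical
  have hfin : ∀ a : ℕ, {π : Fin r → K | IsWeilTuple p a π}.Finite :=
    fun a => Helper43x.ZO.weil_finite_tuple (K := fun _ : Fin r => K) p a
  refine ⟨hfin, ?_, ?_⟩
  · intro hr
    obtain ⟨_, halg⟩ : ∃ _ : Algebra ℚ (AlgebraicClosure ℚ),
        Algebra.IsAlgebraic ℚ (AlgebraicClosure ℚ) := ⟨_, AlgebraicClosure.isAlgebraic ℚ⟩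
    have hcrit : Helper43x.ZO.Crit p (fun _ : Fin r => K) (AlgebraicClosure ℚ) :=
      Helper43x.TH.crit_sign p hK r (fun i => x (Fin.castLE hr i)) fun i j hij =>
        hx.1 _ _ fun h => hij (Fin.castLE_injective hr h)
    obtain ⟨f, t, ht⟩ := Helper43x.ZO.detFun_of_crit (p := p) (K := fun _ : Fin r => K)
      (A := AlgebraicClosure ℚ) hcrit
    intro a h hh
    have h1 := Helper43x.ZO.count_main f t ht a h fun _ => hh
    rw [Helper43x.ZO.card_half_emb] at h1
    have h2 : {π : Fin r → K | IsWeilTuple p a π ∧ ¬ IsGood p a π} =
        {π : Fin r → K | Helper43x.ZO.WeilTuple (K := fun _ : Fin r => K) p a π ∧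
          ¬ (Helper43x.ZO.Separated (K := fun _ : Fin r => K) π ∧
            Helper43x.ZO.Generated (K := fun _ : Fin r => K) π (p ^ a))} := by
      ext π
      constructor
      · rintro ⟨h3, h4⟩
        exact ⟨h3, fun h5 => h4 ⟨h3, h5.1, (generated_iff _ _).2 h5.2⟩⟩
      · rintro ⟨h3, h4⟩
        exact ⟨h3, fun h5 => h4 ⟨h5.2.1, (generated_iff _ _).1 h5.2.2⟩⟩
    have h3 : ∑ _i : Fin r, Module.finrank ℚ K = r * Module.finrank ℚ K := by
      rw [Finset.sum_const, Finset.card_univ, Fintype.card_fin, smul_eq_mul]
    rw [h2, ← h3]
    exact h1
  · intro hr a π h1 h2 h3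
    refine Helper43x.TH.too_many p s
      (fun i => (algebraMap ℚ_[p] (PadicAlgCl p)).comp (x i)) (fun y => ?_) r hr a π h1 h2
      ((generated_iff _ _).1 h3)
    exact hx.2 y

end Pool.Agent.Results.MP_557161_ag.ThresholdOneField
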