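import Pool.Agent.Helper43x.ZO.Main

/-!
# The zero-one law for exotic Tate classes on products of abelian varieties

Let `K i` be finitely many CM fields and let `p` be a prime. A family of Weil numbers `π i` in `K i` for
`q = p ^ a` gives simple abelian varieties `A i` over the field with `q` elements, with Frobenius `π i`.
The family is separated if the endomorphism algebras of the `A i` over an algebraic closure have the
centres `K i` and the `A i` stay simple and not isogenous. We ask whether all Tate classes, over all
finite extensions, on all products of powers of the `A i` are generated by classes of divisors (so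
that the conjecture of Tate holds for them in all degrees).

There is a zero-one law: either this is wrong for **all** separated families of Weil numbers in the
`K i` for powers of `p`, or it is true for **almost all** families: the proportion of the exceptional
families among those for `q = p ^ a` is at most `N / ⌊a / h⌋`, where `N` is half the sum of the degrees
of the `K i` and `h` is the largest class number. The second alternative holds if and only if there
are integers `n i v`, for the places `v` of `K i` above `p`, with `n i v̄ = - n i v`, such that the functions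
`(i, σ) ↦ n i (e ∘ σ)` on the set of all embeddings `σ` of the `K i` in the algebraic numbers, for all
`p`-adic places `e` of the algebraic numbers, generate all odd functions.

The starting result `MP_557161_ag.FewExoticWeilNumbers` is the case of one field which has an
embedding in the field of `p`-adic numbers, when the second alternative always holds.
-/

set_option autoImplicit false

namespace Pool.Agent.Results.MP_557161_ag.ZeroOneLaw

open NumberField NumberField.IsCMField

section defs

variable {Ω V : Type} [Field Ω] [AddCommGroup V] [Module Ω V]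

/-- The classes in `⋀ ^ (2 m) V` that are multiplied by `(q ^ m) ^ s` by `F ^ s`. -/
def tateClasses (F : V →ₗ[Ω] V) (q : ℕ) (m s : ℕ) : Set (ExteriorAlgebra Ω V) :=
  {x | x ∈ ⋀[Ω]^(2 * m) V ∧ ExteriorAlgebra.map (F ^ s) x = ((q : Ω) ^ m) ^ s • x}

variable {I : Type} {K : I → Type} [∀ i, Field (K i)]

/-- `V` is spanned by eigenvectors of `F` whose eigenvalues are images in `Ω` of the `π i`. -/
def HasEigenvalues (π : ∀ i, K i) (F : V →ₗ[Ω] V) : Prop :=
  Submodule.span Ω {v : V | ∃ i, ∃ σ : K i →+* Ω, F v = σ (π i) • v} = ⊤

/-- All Tate classes, over all finite extensions, in the even exterior powers of Frobenius modules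
with eigenvalues conjugate to the `π i` are polynomials in the Tate classes of degree two. -/
def TateClassesGenerated (π : ∀ i, K i) (q : ℕ) : Prop :=
  ∀ {Ω V : Type} [Field Ω] [IsAlgClosed Ω] [CharZero Ω] [AddCommGroup V] [Module Ω V]
    (F : V →ₗ[Ω] V), HasEigenvalues π F → ∀ m s : ℕ, 0 < s →
      ∀ x ∈ tateClasses F q m s, x ∈ Algebra.adjoin Ω (tateClasses F q 1 1)

/-- The `π i` are Weil numbers of weight one for `p ^ a`: algebraic integers all of whose complex
absolute values are `p ^ (a / 2)`. -/
def IsWeilFamily (p a : ℕ) (π : ∀ i, K i) : Prop :=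
  ∀ i, IsIntegral ℤ (π i) ∧ ∀ φ : K i →+* ℂ, ‖φ (π i)‖ ^ 2 = (p : ℝ) ^ a

/-- For all positive `n` the complex conjugates of the `n`-th powers of all the `π i` are different:
the powers of `π i` generate `K i`, and they are not conjugate to those of `π j` for `j ≠ i`. -/
def IsSeparated (π : ∀ i, K i) : Prop :=
  ∀ n : ℕ, 0 < n → Function.Injective fun x : Σ i, K i →+* ℂ => x.2 (π x.1) ^ n

/-- The family is a separated family of Weil numbers without exotic Tate classes. -/
def IsGood (p a : ℕ) (π : ∀ i, K i) : Prop :=
  IsWeilFamily p a π ∧ IsSeparated π ∧ TateClassesGenerated π (p ^ a)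

end defs

section crit

/-- The embedding that is conjugate to `σ`. -/
noncomputable def conj {K : Type} [Field K] [NumberField K] [IsCMField K] {A : Type} [Field A]
    (σ : K →+* A) : K →+* A :=
  σ.comp (complexConj K : K →+* K)

variable {I : Type} [Fintype I] (K : I → Type) [∀ i, Field (K i)] [∀ i, NumberField (K i)]
  [∀ i, IsCMField (K i)] (p : ℕ) [Fact p.Prime]

/-- The integers `n i y`, for the embeddings `y` of `K i` in the algebraic closure of the `p`-adic
numbers, depend only on the place of `K i` defined by `y`, and they change the sign if `y` is replaced by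
the conjugate embedding. -/
def IsOddOnPlaces (n : ∀ i, (K i →+* PadicAlgCl p) → ℤ) : Prop :=
  (∀ i y, n i (conj y) = - n i y) ∧ ∀ i y y', (∀ z, ‖y z‖ = ‖y' z‖) → n i y = n i y'

/-- The embeddings of the `K i` in the field of algebraic numbers. -/
abbrev Emb : Type := Σ i, K i →+* AlgebraicClosure ℚ

variable {K p}

/-- The function `(i, σ) ↦ n i (e ∘ σ)` of a `p`-adic place `e` of the field of algebraic numbers. -/
noncomputable def values (n : ∀ i, (K i →+* PadicAlgCl p) → ℤ) (e : AlgebraicClosure ℚ →+* PadicAlgCl p)
    (x : Emb K) : ℤ :=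
  n x.1 (e.comp x.2)

variable (K p)

/-- The functions `(i, σ) ↦ n i (e ∘ σ)` of all `e` generate the odd functions: no odd function other
than zero is orthogonal to all of them. -/
def IsGenerating (n : ∀ i, (K i →+* PadicAlgCl p) → ℤ) : Prop :=
  ∀ b : Emb K → ℤ, (∀ x, b ⟨x.1, conj x.2⟩ = - b x) → (∀ e, ∑ x, b x * values n e x = 0) → b = 0

/-- For all `a`, and all `h` which are at least the class numbers of the `K i`, the proportion among the
families of Weil numbers in the `K i` for `p ^ a` of those which are not good is at most `N / ⌊a / h⌋`,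
where `N` is half the sum of the degrees of the `K i`. -/
def AlmostAllGood : Prop :=
  ∀ a h : ℕ, (∀ i, classNumber (K i) ≤ h) →
    {π : ∀ i, K i | IsWeilFamily p a π ∧ ¬ IsGood p a π}.ncard * (a / h) ≤
      {π : ∀ i, K i | IsWeilFamily p a π}.ncard * ((∑ i, Module.finrank ℚ (K i)) / 2)

end crit

section proof

theorem generated_iff {I : Type} {K : I → Type} [∀ i, Field (K i)] (π : ∀ i, K i) (q : ℕ) :
    TateClassesGenerated π q ↔ Helper43x.ZO.Generated π q := by
  have h2 : ∀ {Ω V : Type} [Field Ω] [AddCommGroup V] [Module Ω V] (F : V →ₗ[Ω] V),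
      tateClasses F q 1 1 = {y : ExteriorAlgebra Ω V |
        y ∈ ⋀[Ω]^2 V ∧ ExteriorAlgebra.map F y = (q : Ω) • y} := by
    intro Ω V _ _ _ F
    ext y
    simp only [tateClasses, mul_one, pow_one]
  constructor
  · intro h Ω V _ _ _ _ _ F hF m s hs x hx hFx
    rw [← h2]
    exact h F hF m s hs x ⟨hx, hFx⟩
  · intro h Ω V _ _ _ _ _ F hF m s hs x hx
    rw [h2]
    exact h F hF m s hs x hx.1 hx.2

end proof

/-- **The zero-one law for exotic Tate classes.** Let `K i` be finitely many CM fields and let `p` be a
prime. The following are equivalent: there is a good family of Weil numbers in the `K i` for one power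
of `p`, that is, a separated family without exotic Tate classes; almost all families are good: for all
`a` the proportion of the families for `p ^ a` that are not good is at most `N / ⌊a / h⌋`; there are
integers attached to the places above `p` that are odd and generating. -/
theorem result (p : ℕ) [Fact p.Prime] {I : Type} [Fintype I] (K : I → Type) [∀ i, Field (K i)]
    [∀ i, NumberField (K i)] [∀ i, IsCMField (K i)] :
    (∀ a : ℕ, {π : ∀ i, K i | IsWeilFamily p a π}.Finite) ∧
    List.TFAE [∃ (a : ℕ) (π : ∀ i, K i), IsGood p a π, AlmostAllGood K p,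
      ∃ n, IsOddOnPlaces K p n ∧ IsGenerating K p n] := by
  classical
  have hfin : ∀ a : ℕ, {π : ∀ i, K i | IsWeilFamily p a π}.Finite :=
    fun a => Helper43x.ZO.weil_finite_tuple p a
  refine ⟨hfin, ?_⟩
  obtain ⟨_, halg⟩ : ∃ _ : Algebra ℚ (AlgebraicClosure ℚ),
      Algebra.IsAlgebraic ℚ (AlgebraicClosure ℚ) := ⟨_, AlgebraicClosure.isAlgebraic ℚ⟩
  tfae_have 1 → 3 := by
    rintro ⟨a, π, h1, h2, h3⟩
    obtain ⟨f, hf⟩ := Helper43x.ZO.detFun_of_good (A := AlgebraicClosure ℚ) h1 h2
      ((generated_iff _ _).1 h3)
    obtain ⟨n, hn1, hn2, hn3⟩ := Helper43x.ZO.crit_of_detFun f _ hf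
    exact ⟨n, ⟨hn1, hn2⟩, hn3⟩
  tfae_have 3 → 2 := by
    rintro ⟨n, ⟨hn1, hn2⟩, hn3⟩
    obtain ⟨f, t, ht⟩ := Helper43x.ZO.detFun_of_crit (p := p) (K := K)
      (A := AlgebraicClosure ℚ) ⟨n, hn1, hn2, hn3⟩
    intro a h hh
    have h1 := Helper43x.ZO.count_main f t ht a h hh
    rw [Helper43x.ZO.card_half_emb] at h1
    have h2 : {π : ∀ i, K i | IsWeilFamily p a π ∧ ¬ IsGood p a π} =
        {π : ∀ i, K i | Helper43x.ZO.WeilTuple p a π ∧
          ¬ (Helper43x.ZO.Separated π ∧ Helper43x.ZO.Generated π (p ^ a))} := by
      ext π
      constructor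
      · rintro ⟨h3, h4⟩
        exact ⟨h3, fun h5 => h4 ⟨h3, h5.1, (generated_iff _ _).2 h5.2⟩⟩
      · rintro ⟨h3, h4⟩
        exact ⟨h3, fun h5 => h4 ⟨h5.2.1, (generated_iff _ _).1 h5.2.2⟩⟩
    rw [h2]
    exact h1
  tfae_have 2 → 1 := by
    intro h2
    by_contra hcon
    push Not at hcon
    set N := (∑ i, Module.finrank ℚ (K i)) / 2 with hN
    set h := ∑ i, classNumber (K i) + 1 with hh
    have h3 := h2 (2 * (h * (N + 1))) h (fun i =>
      (Finset.single_le_sum (f := fun i => classNumber (K i)) (fun _ _ => Nat.zero_le _)
        (Finset.mem_univ i)).trans (Nat.le_succ _))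
    set a := 2 * (h * (N + 1)) with ha
    have h4 : {π : ∀ i, K i | IsWeilFamily p a π ∧ ¬ IsGood p a π} =
        {π : ∀ i, K i | IsWeilFamily p a π} := by
      ext π
      exact ⟨fun h5 => h5.1, fun h5 => ⟨h5, hcon a π⟩⟩
    have h5 : 0 < {π : ∀ i, K i | IsWeilFamily p a π}.ncard := by
      rw [Set.ncard_pos (hfin a)]
      refine ⟨fun i => (p : K i) ^ (h * (N + 1)), fun i => ⟨(isIntegral_natCast p).pow _,
        fun φ => ?_⟩⟩
      rw [map_pow, map_natCast, norm_pow, Complex.norm_natCast, ha]
      ring
    rw [h4] at h3
    have h6 := Nat.le_of_mul_le_mul_left h3 h5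
    have h7 : a / h = 2 * (N + 1) := by
      rw [ha, show 2 * (h * (N + 1)) = h * (2 * (N + 1)) by ring]
      exact Nat.mul_div_cancel_left _ (by omega)
    omega
  tfae_finish

end Pool.Agent.Results.MP_557161_ag.ZeroOneLaw
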